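import Pool.Agent.Helper86.YV.Good
import Pool.Agent.Helper19.AAE.Good

/-!
# YV: the degree of the splitting field of the `i`-th polynomial
-/

set_option autoImplicit false

open Polynomial

namespace Pool.Agent.Helper86.YV

open Pool.Agent.Helper84.AA (frob)
open Pool.Agent.Helper19.AAR (splitF GoodR)
open Pool.Agent.Helper19.Sign (weil weil_monic)
open Pool.Agent.Helper86.XE (NiceO)
open Pool.Agent.Helper19.AAT (FineAt)

theorem two_pow_le_of_goodR {q k : ℕ} {h : Fin k → ℤ[X]} (hm : ∀ i, (h i).Monic)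
    (hd : ∀ i, 2 ≤ (h i).natDegree) (hg : GoodR q h) (i : Fin k) :
    2 ^ (h i).natDegree ≤ Module.finrank ℚ (splitF (frob q (h i))) := by
  classical
  by_contra hlt
  rw [not_le] at hlt
  have hfm := weil_monic (q : ℤ) (h i) (hm i)
  have hfm1 : (frob q (h i)).Monic := hfm.1
  have hfd : (frob q (h i)).natDegree = 2 * (h i).natDegree := hfm.2
  have h6 := hd i
  have hirr : Irreducible ((frob q (h i)).map (Int.castRingHom ℚ)) :=
    (hfm1.irreducible_iff_irreducible_map_fraction_map (K := ℚ)).1 (hg.1 i)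
  obtain ⟨z, hz⟩ := IsAlgClosed.exists_root ((frob q (h i)).map (Int.castRingHom ℂ)) (by
    intro h1
    have h2 : ((frob q (h i)).map (Int.castRingHom ℂ)).natDegree = 0 :=
      natDegree_eq_of_degree_eq_some (n := 0) (by rw [h1]; rfl)
    rw [hfm1.natDegree_map] at h2
    omega)
  have hzr : z ∈ ((frob q (h i)).map (Int.castRingHom ℂ)).roots.toFinset := by
    rw [Multiset.mem_toFinset, mem_roots (hfm1.map _).ne_zero]
    exact hz
  have hz1 : aeval z (frob q (h i)) = 0 := by
    rw [IsRoot.def, eval_map] at hz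
    rw [aeval_def, ← hz]
    congr 1
  have hzF : z ∈ splitF (frob q (h i)) := IntermediateField.subset_adjoin ℚ _ hz1
  -- `z ^ 2 ≠ q`
  have hmin : minpoly ℚ z = (frob q (h i)).map (Int.castRingHom ℚ) := by
    refine (minpoly.eq_of_irreducible_of_monic hirr ?_ (hfm1.map _)).symm
    rw [aeval_def, eval₂_map, ← hz1, aeval_def]
    congr 1
  have hne : z ^ 2 ≠ q := by
    intro hzq
    have h2 : minpoly ℚ z ∣ X ^ 2 - C (q : ℚ) := by
      apply minpoly.dvd
      rw [map_sub, map_pow, aeval_X, aeval_C, hzq]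
      simp
    have h3 := natDegree_le_of_dvd h2 (X_pow_sub_C_ne_zero (by norm_num) _)
    rw [hmin, natDegree_X_pow_sub_C] at h3
    have h4 : ((frob q (h i)).map (Int.castRingHom ℚ)).natDegree = (frob q (h i)).natDegree :=
      Monic.natDegree_map hfm1 _
    omega
  have hz0 : z ≠ 0 := by
    rintro rfl
    have h7 : minpoly ℚ (0 : ℂ) = X := minpoly.zero ℚ ℂ
    rw [h7] at hmin
    have h8 := congrArg natDegree hmin
    rw [natDegree_X, hfm1.natDegree_map] at h8
    omega
  have h2 := hg.2 (frob q (h i)) hfm1.ne_zero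
    (fun j w => if j = i then (if w = z then 1 else 0) else 0) 1 one_ne_zero
  have h3 : (∏ j, ∏ w ∈ ((frob q (h j)).map (Int.castRingHom ℂ)).roots.toFinset,
      w ^ (if j = i then (if w = z then (1 : ℤ) else 0) else 0)) = z := by
    rw [Finset.prod_eq_single i]
    · rw [Finset.prod_eq_single_of_mem z hzr]
      · rw [if_pos rfl, if_pos rfl, zpow_one]
      · intro w _ hw
        rw [if_pos rfl, if_neg hw, zpow_zero]
    · intro j _ hj
      refine Finset.prod_eq_one fun w _ => ?_
      rw [if_neg hj, zpow_zero]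
    · intro h'; exact absurd (Finset.mem_univ i) h'
  rw [h3, pow_one] at h2
  have h4 := h2 hzF i hlt z hzr
  rw [if_pos rfl, if_pos rfl, if_pos rfl] at h4
  by_cases h5 : (q : ℂ) / z = z
  · apply hne
    rw [div_eq_iff hz0] at h5
    rw [h5]
    ring
  · rw [if_neg h5] at h4
    exact one_ne_zero h4

/-- `GoodF` and the degree bound, as one property. -/
def GoodD (q : ℕ) {k : ℕ} (h : Fin k → ℤ[X]) : Prop :=
  GoodF q h ∧ ∀ i, 2 ^ (h i).natDegree ≤ Module.finrank ℚ (splitF (frob q (h i)))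

theorem goodD_odd {q k : ℕ} (hq : 1 ≤ q) (h : Fin k → ℤ[X]) (hm : ∀ i, (h i).Monic)
    (hd : ∀ i, 2 ≤ (h i).natDegree) (hirr : ∀ i, Irreducible (h i))
    (hl : ∀ i, ∃ l, NiceO q (h i) l ∧ ∀ j, j ≠ i → FineAt q (h j) l) : GoodD q h :=
  ⟨goodF_odd hq h hm hd hirr hl, two_pow_le_of_goodR hm hd
    (Pool.Agent.Helper19.AAE.goodR_odd hq h hm hd hirr hl)⟩

end Pool.Agent.Helper86.YV
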