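import Pool.Agent.Helper19.AAR.Flip
import Pool.Agent.Helper19.AAR.Pigeon
import Pool.Agent.Helper19.Sign.ArithCore

/-!
# YV: relations over a number field which does not contain the roots of the `i`-th polynomial
-/

set_option autoImplicit false

open Polynomial Finset

namespace Pool.Agent.Helper86.YV

open Pool.Agent.Helper19
open Pool.Agent.Helper19.AAR
open Pool.Agent.Helper19.Sign

/-- A normal subgroup which moves a point of the `i`-th orbit contains, for every point `x₀` of this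
orbit, an element which maps `x₀` to `ι x₀`. -/
theorem exists_flip_of_move {G S I : Type*} [Group G] [MulAction G S] {ι : S → S}
    (hι : ∀ x, ι (ι x) = x) (hcomm : ∀ (g : G) (x : S), g • ι x = ι (g • x)) (p : S → I)
    (i : I) (htr : ∀ x y, p x = i → p y = i → ∃ g : G, g • x = y)
    (hs : ∃ x, p x = i ∧ ∃ σ : G, σ • x = ι x ∧ ∀ y, y ≠ x → y ≠ ι x → σ • y = y)
    (H : Subgroup G) (hnor : H.Normal) (hmove : ∃ σ ∈ H, ∃ y, p y = i ∧ σ • y ≠ y)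
    (x₀ : S) (hx₀ : p x₀ = i) : ∃ τ ∈ H, τ • x₀ = ι x₀ := by
  obtain ⟨σ, hσ, y, hy, hyσ⟩ := hmove
  -- some point is mapped to its partner
  have key : ∃ τ ∈ H, τ • y = ι y := by
    by_cases h1 : σ • y = ι y
    · exact ⟨σ, hσ, h1⟩
    -- the flip at `y`
    obtain ⟨x₁, hx₁, f₁, hf1, hf2⟩ := hs
    obtain ⟨a, ha⟩ := htr x₁ y hx₁ hy
    have ha' : a⁻¹ • y = x₁ := by rw [← ha, inv_smul_smul]
    obtain ⟨f, hfd⟩ : ∃ f : G, f = a * f₁ * a⁻¹ := ⟨_, rfl⟩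
    have hfy : f • y = ι y := by
      rw [hfd, mul_smul, mul_smul, ha', hf1, hcomm, ha]
    have hfz : ∀ z, z ≠ y → z ≠ ι y → f • z = z := by
      intro z hz hz'
      rw [hfd, mul_smul, mul_smul, hf2 (a⁻¹ • z) ?_ ?_, smul_inv_smul]
      · intro h
        apply hz
        rw [← ha, ← h, smul_inv_smul]
      · intro h
        apply hz'
        rw [← ha, ← hcomm, ← h, smul_inv_smul]
    have hfι : f⁻¹ • y = ι y := by
      rw [inv_smul_eq_iff, hcomm, hfy, hι]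
    refine ⟨σ * (f * σ⁻¹ * f⁻¹), H.mul_mem hσ (hnor.conj_mem _ (H.inv_mem hσ) f), ?_⟩
    rw [mul_smul, mul_smul, mul_smul, hfι, hcomm]
    have n1 : ι (σ⁻¹ • y) ≠ y := by
      intro h
      apply h1
      have h2 : σ⁻¹ • y = ι y := by rw [← h, hι, h]
      rw [inv_smul_eq_iff, hcomm] at h2
      rw [h2, hι]
      exact h2 ▸ rfl
    have n2 : ι (σ⁻¹ • y) ≠ ι y := by
      intro h
      have h2 : σ⁻¹ • y = y := by rw [← hι (σ⁻¹ • y), h, hι]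
      apply hyσ
      rw [inv_smul_eq_iff] at h2
      exact h2.symm
    rw [hfz _ n1 n2, hcomm, smul_inv_smul]
  obtain ⟨τ, hτ, hτy⟩ := key
  obtain ⟨b, hb⟩ := htr y x₀ hy hx₀
  refine ⟨b * τ * b⁻¹, hnor.conj_mem _ hτ b, ?_⟩
  have hb' : b⁻¹ • x₀ = y := by rw [← hb, inv_smul_smul]
  rw [mul_smul, mul_smul, hb', hτy, hcomm, hb]
open Disc (roots Rt mem_roots' stab_roots roots_map_eq exists_conj)

theorem theoremN (I : Type) [Fintype I] (c : I → ℤ) (hc : ∀ i, c i ≠ 0) (h : I → ℤ[X])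
    (hm : ∀ i, (h i).Monic) (hirr' : ∀ i, Irreducible ((h i).map (Int.castRingHom ℚ)))
    (hd : ∀ i, 2 ≤ (h i).natDegree)
    (hℓ : ∀ i, ∃ ℓ : ℕ, ℓ.Prime ∧ (∀ j, ((h j).map (Int.castRingHom (ZMod ℓ))).Separable) ∧
      Odd (padicValInt ℓ ((h i).resultant (X ^ 2 - C (4 * c i)))) ∧
      ∀ j, j ≠ i → ¬ (ℓ : ℤ) ∣ (h j).resultant (X ^ 2 - C (4 * c j)))
    (L : Type) [Field L] [NumberField L] [IsGalois ℚ L]
    (hsplit : ∀ i, ((qw (c i) (h i)).map (algebraMap ℚ L)).Splits)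
    (H : Subgroup (L ≃ₐ[ℚ] L)) (hnor : H.Normal)
    (n : I → L → ℤ) (N : ℕ) (hN : N ≠ 0)
    (hrel : ∀ σ ∈ H, σ ((∏ i, ∏ β ∈ roots (qw (c i) (h i)) L, β ^ n i β) ^ N) =
      (∏ i, ∏ β ∈ roots (qw (c i) (h i)) L, β ^ n i β) ^ N)
    (i : I) (hH : ∃ σ ∈ H, ∃ β ∈ roots (qw (c i) (h i)) L, σ β ≠ β) :
    ∀ β ∈ roots (qw (c i) (h i)) L, n i β = n i ((c i : L) / β) := by
  classical
  intro β₀ hβ₀
  have hirr : ∀ i, Irreducible (qw (c i) (h i)) := by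
    intro i
    obtain ⟨ℓ, hℓp, _, hodd, _⟩ := hℓ i
    exact irreducible_qw (hc i) (hm i) (hirr' i) hℓp hodd
  -- the set with its action
  have hPne : ∀ i, qw (c i) (h i) ≠ 0 := fun i => (hirr i).ne_zero
  let S : Type := Σ i, Rt L (qw (c i) (h i))
  let act' : MulAction (L ≃ₐ[ℚ] L) S := Disc.actSigma hPne
  have hSext : ∀ x y : S, x.1 = y.1 → x.2.1 = y.2.1 → x = y := by
    rintro ⟨i, x, hx⟩ ⟨j, y, hy⟩ h1 h2
    obtain rfl : i = j := h1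
    obtain rfl : x = y := h2
    rfl
  have hx0 : ∀ x : S, x.2.1 ≠ 0 := fun x => qw_root_ne_zero (hm x.1) (hirr x.1) x.2.2
  have hcL : ∀ i, (c i : L) ≠ 0 := fun i => by exact_mod_cast hc i
  have hsym : ∀ i, ∀ β ∈ roots (qw (c i) (h i)) L, (c i : L) / β ∈ roots (qw (c i) (h i)) L := by
    intro i β hβ
    have h1 := qw_root_ne_zero (hm i) (hirr i) hβ
    rw [mem_qw (hm i) (hPne i) (div_ne_zero (hcL i) h1), div_div_cancel₀ (hcL i), add_comm]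
    exact (mem_qw (hm i) (hPne i) h1).1 hβ
  have hact : ∀ (σ : L ≃ₐ[ℚ] L) (x : S), (σ • x).1 = x.1 ∧ (σ • x).2.1 = σ x.2.1 :=
    fun _ _ => ⟨rfl, rfl⟩
  let ι : S → S := fun x => ⟨x.1, ⟨(c x.1 : L) / x.2.1, hsym x.1 x.2.1 x.2.2⟩⟩
  have hι' : ∀ x : S, (ι x).1 = x.1 ∧ (ι x).2.1 = (c x.1 : L) / x.2.1 := fun _ => ⟨rfl, rfl⟩
  have hι : ∀ x : S, ι (ι x) = x := by
    intro x
    refine hSext (ι (ι x)) x rfl ?_
    show (c x.1 : L) / ((c x.1 : L) / x.2.1) = x.2.1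
    rw [div_div_cancel₀ (hcL x.1)]
  have hcomm : ∀ (g : L ≃ₐ[ℚ] L) (x : S), g • ι x = ι (g • x) := by
    intro g x
    refine hSext (g • ι x) (ι (g • x)) rfl ?_
    show g ((c x.1 : L) / x.2.1) = (c x.1 : L) / g x.2.1
    rw [map_div₀, map_intCast]
  have hfix' : ∀ x : S, x.2.1 ^ 2 ≠ (c x.1 : L) := fun x =>
    sq_ne_of_degree (hm x.1) (hirr x.1) (hd x.1) x.2.2 (c x.1)
  have hfix : ∀ x : S, ι x ≠ x := by
    intro x h1
    apply hfix' x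
    have h2 : (c x.1 : L) / x.2.1 = x.2.1 := congrArg (fun y : S => y.2.1) h1
    rw [div_eq_iff (hx0 x)] at h2
    rw [h2]; ring
  obtain ⟨ℓ, hℓp, hsep, hodd, hndvd⟩ := hℓ i
  obtain ⟨x₁, hx₁, σ₁, hσ₁, hσ₁'⟩ := exists_flip I c hc h hm hirr L hsplit hact ι hι'
    hι hcomm hfix hfix' i ℓ hℓp hsep hodd hndvd
  let x₀ : S := ⟨i, ⟨β₀, hβ₀⟩⟩
  have htr : ∀ x y : S, x.1 = i → y.1 = i → ∃ g : L ≃ₐ[ℚ] L, g • x = y := by
    rintro ⟨j, x⟩ ⟨j', y⟩ hj hj'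
    obtain rfl : j = i := hj
    obtain rfl : j' = j := hj'
    obtain ⟨τ, hτ⟩ := exists_conj (hirr j') x y
    exact ⟨τ, hSext _ _ rfl hτ⟩
  obtain ⟨σ₂, hσ₂, β₂, hβ₂, hne⟩ := hH
  obtain ⟨τ, hτH, hτx⟩ := exists_flip_of_move (G := L ≃ₐ[ℚ] L) (S := S) hι hcomm
    (fun x => x.1) i htr ⟨x₁, hx₁, σ₁, hσ₁, hσ₁'⟩ H hnor
    ⟨σ₂, hσ₂, ⟨i, ⟨β₂, hβ₂⟩⟩, rfl, fun h => hne (congrArg (fun y : S => y.2.1) h)⟩ x₀ rfl
  have hτβ : τ β₀ = (c i : L) / β₀ := by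
    have h1 : (τ • x₀).2.1 = (ι x₀).2.1 := by rw [hτx]
    exact h1
  have hβ0 : β₀ ≠ 0 := hx0 x₀
  have hτβ' : τ ((c i : L) / β₀) = β₀ := by
    rw [map_div₀, map_intCast, hτβ, div_div_cancel₀ (hcL i)]
  have hinv1 : τ⁻¹ β₀ = (c i : L) / β₀ := by
    apply τ.injective
    rw [hτβ']
    exact τ.apply_symm_apply β₀
  have hinv2 : τ⁻¹ ((c i : L) / β₀) = β₀ := by
    apply τ.injective
    rw [hτβ]
    exact τ.apply_symm_apply _
  -- the relation for `n ∘ τ⁻¹ - n`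
  set w : L := ∏ i, ∏ β ∈ roots (qw (c i) (h i)) L, β ^ n i β with hw
  have hw0 : w ≠ 0 := prod_ne_zero_iff.2 fun j _ => prod_ne_zero_iff.2 fun β hβ =>
    zpow_ne_zero _ (qw_root_ne_zero (hm j) (hirr j) hβ)
  have hτw : τ w = ∏ i, ∏ β ∈ roots (qw (c i) (h i)) L, β ^ n i (τ⁻¹ β) := by
    rw [hw, map_prod]
    refine prod_congr rfl fun j _ => ?_
    rw [map_prod]
    refine prod_bij' (fun β _ => τ β) (fun β _ => τ⁻¹ β) (fun β hβ => stab_roots (hPne j) τ hβ)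
      (fun β hβ => stab_roots (hPne j) τ⁻¹ hβ) (fun β _ => τ.symm_apply_apply β)
      (fun β _ => τ.apply_symm_apply β) fun β _ => ?_
    have h1 : τ⁻¹ (τ β) = β := τ.symm_apply_apply β
    rw [h1, map_zpow₀]
  have hτwN : (τ w) ^ N = w ^ N := by
    rw [← map_pow]
    exact hrel τ hτH
  have hrel' : (∏ i, ∏ β ∈ roots (qw (c i) (h i)) L, β ^ (n i (τ⁻¹ β) - n i β)) ^ N =
      algebraMap ℚ L 1 := by
    have h1 : ∏ i, ∏ β ∈ roots (qw (c i) (h i)) L, β ^ (n i (τ⁻¹ β) - n i β) = τ w / w := by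
      rw [hτw, hw, ← prod_div_distrib]
      refine prod_congr rfl fun j _ => ?_
      rw [← prod_div_distrib]
      refine prod_congr rfl fun β hβ => ?_
      rw [zpow_sub₀ (qw_root_ne_zero (hm j) (hirr j) hβ)]
    rw [h1, div_pow, hτwN, div_self (pow_ne_zero _ hw0), map_one]
  have h4 := theoremB' I c hc h hm hirr' hℓ L hsplit
    (fun i hdi => by have := hd i; omega)
    (fun i β => n i (τ⁻¹ β) - n i β) N hN 1 hrel' i β₀ hβ₀
  simp only [hinv1, hinv2] at h4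
  omega

end Pool.Agent.Helper86.YV
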