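import Pool.Agent.Helper19.AAR.Good

/-!
# YV: tuples without relations over fields which do not contain the roots
-/

set_option autoImplicit false

open Polynomial

namespace Pool.Agent.Helper86.YV

open Pool.Agent.Helper84.AA (frob)
open Pool.Agent.Helper19.AAR (splitF)

/-- All the polynomials `T ^ g h_i(T + q / T)` are irreducible, and for every number field `F`
generated by the roots of an integral polynomial and every `i` such that `F` does not contain all
the roots of the `i`-th polynomial: if a monomial in the roots of all these polynomials has a power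
in `F`, then its exponents at the roots `z` and `q / z` of the `i`-th polynomial are equal. -/
def GoodF (q : ℕ) {k : ℕ} (h : Fin k → ℤ[X]) : Prop :=
  (∀ i, Irreducible (frob q (h i))) ∧ ∀ f : ℤ[X], f ≠ 0 → ∀ (n : Fin k → ℂ → ℤ) (N : ℕ), N ≠ 0 →
    (∏ i, ∏ z ∈ ((frob q (h i)).map (Int.castRingHom ℂ)).roots.toFinset, z ^ n i z) ^ N ∈
      splitF f →
    ∀ i, ¬ splitF (frob q (h i)) ≤ splitF f →
      ∀ z ∈ ((frob q (h i)).map (Int.castRingHom ℂ)).roots.toFinset, n i z = n i (q / z)

end Pool.Agent.Helper86.YV
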