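import Pool.Agent.Helper19.AAR.SignRel
import Pool.Agent.Helper86.YV.Good

/-!
# YV: the converse: a relation over `F` which contains a root of `F (z + q / z)` only once
-/

set_option autoImplicit false

open Polynomial Finset

namespace Pool.Agent.Helper86.YV

open Pool.Agent.Helper19.AAR (splitF crt)
open Pool.Agent.Helper19.Sign (qw weil weil_monic irreducible_qw mem_qw qw_root_ne_zero)
open Pool.Agent.Helper19.Disc (roots mem_roots' stab_roots)

/-- If `β` is in `F (β + q / β)`, `F` the field generated by the roots of `f`, then no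
automorphism over `F` maps `β` to `q / β`, unless `β ^ 2 = q`. -/
theorem noconj_aux (L : Type) [Field L] [NumberField L] [IsGalois ℚ L] (ψ : L →+* ℂ) (f : ℤ[X])
    (hψ : ∀ z : ℂ, aeval z f = 0 → ∃ y : L, ψ y = z) (q : ℤ) (β : L) (hβ : β ≠ 0)
    (h : ψ β ∈ splitF f ⊔ IntermediateField.adjoin ℚ {ψ β + (q : ℂ) / ψ β})
    (τ : L ≃ₐ[ℚ] L) (hτ : ∀ x ∈ IntermediateField.adjoin ℚ {z : L | aeval z f = 0}, τ x = x)
    (hτβ : τ β = (q : L) / β) : β ^ 2 = q := by
  set A : IntermediateField ℚ L := IntermediateField.adjoin ℚ {z : L | aeval z f = 0} with hA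
  set t : L := β + (q : L) / β with ht
  have hψt : ψ t = ψ β + (q : ℂ) / ψ β := by
    rw [ht, map_add, map_div₀, map_intCast]
  have hle : splitF f ⊔ IntermediateField.adjoin ℚ {ψ β + (q : ℂ) / ψ β} ≤
      (A ⊔ IntermediateField.adjoin ℚ {t}).map ψ.toRatAlgHom := by
    refine sup_le ?_ ?_
    · rw [splitF, IntermediateField.adjoin_le_iff]
      intro z hz
      obtain ⟨y, rfl⟩ := hψ z hz
      refine ⟨y, (le_sup_left : A ≤ A ⊔ IntermediateField.adjoin ℚ {t}) ?_, rfl⟩
      exact (field_aux2 L ψ f hψ y).1 (IntermediateField.subset_adjoin ℚ _ hz)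
    · rw [IntermediateField.adjoin_simple_le_iff, ← hψt]
      exact ⟨t, (le_sup_right : IntermediateField.adjoin ℚ {t} ≤
        A ⊔ IntermediateField.adjoin ℚ {t}) (IntermediateField.mem_adjoin_simple_self ℚ t), rfl⟩
  have hE : β ∈ A ⊔ IntermediateField.adjoin ℚ {t} := by
    obtain ⟨y, hy, hyβ⟩ := hle h
    have h3 : y = β := ψ.injective hyβ
    rwa [← h3]
  have hτt : τ t = t := by
    rw [ht, map_add, map_div₀, map_intCast, hτβ, div_div_cancel₀]
    · ring
    · intro h0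
      rw [h0, zero_div] at hτβ
      exact hβ ((map_eq_zero τ).1 hτβ)
  have hfix : A ⊔ IntermediateField.adjoin ℚ {t} ≤
      IntermediateField.fixedField (Subgroup.zpowers τ) := by
    refine sup_le (fun x hx => ?_) ?_
    · rw [IntermediateField.mem_fixedField_iff]
      intro σ hσ
      have h5 : τ ∈ MulAction.stabilizer (L ≃ₐ[ℚ] L) x := hτ x hx
      exact (Subgroup.zpowers_le.2 h5) hσ
    · rw [IntermediateField.adjoin_simple_le_iff, IntermediateField.mem_fixedField_iff]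
      intro σ hσ
      have h5 : τ ∈ MulAction.stabilizer (L ≃ₐ[ℚ] L) t := hτt
      exact (Subgroup.zpowers_le.2 h5) hσ
  have h6 : τ β = β :=
    (IntermediateField.mem_fixedField_iff _ _).1 (hfix hE) τ (Subgroup.mem_zpowers τ)
  rw [h6, eq_div_iff hβ] at hτβ
  rw [sq]; exact hτβ

theorem conv (q : ℕ) (h : ℤ[X]) (hq : 0 < q) (hm : h.Monic) (hirr : Irreducible (weil (q : ℤ) h))
    (f : ℤ[X]) (hf : f ≠ 0) (z : ℂ) (hz : z ∈ crt (weil (q : ℤ) h)) (hne : z ^ 2 ≠ q)
    (hzF : z ∈ splitF f ⊔ IntermediateField.adjoin ℚ {z + (q : ℂ) / z}) :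
    ∃ (n : ℂ → ℤ) (N : ℕ), N ≠ 0 ∧ (∏ w ∈ crt (weil (q : ℤ) h), w ^ n w) ^ N ∈ splitF f ∧
      n z ≠ n (q / z) := by
  classical
  have hq0 : (q : ℤ) ≠ 0 := by omega
  have hfm : (weil (q : ℤ) h).Monic := (weil_monic (q : ℤ) h hm).1
  have h1 : Irreducible (qw (q : ℤ) h) :=
    (hfm.irreducible_iff_irreducible_map_fraction_map (K := ℚ)).1 hirr
  -- the splitting field
  set P : ℚ[X] := qw (q : ℤ) h * f.map (Int.castRingHom ℚ) with hP
  have hf0 : f.map (Int.castRingHom ℚ) ≠ 0 :=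
    (Polynomial.map_ne_zero_iff (Int.castRingHom ℚ).injective_int).2 hf
  have hP0 : P ≠ 0 := mul_ne_zero h1.ne_zero hf0
  have hsC : (P.map (algebraMap ℚ ℂ)).Splits := IsAlgClosed.splits _
  let L : IntermediateField ℚ ℂ := IntermediateField.adjoin ℚ (P.rootSet ℂ)
  have hL : P.IsSplittingField ℚ L := IntermediateField.adjoin_rootSet_isSplittingField hsC
  have : FiniteDimensional ℚ L := IsSplittingField.finiteDimensional L P
  have : NumberField L := { }
  have hnorm : Normal ℚ L := Normal.of_isSplittingField P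
  have : IsGalois ℚ L := { }
  have hsP : (P.map (algebraMap ℚ L)).Splits := IsSplittingField.splits L P
  have hsL : ((qw (q : ℤ) h).map (algebraMap ℚ L)).Splits := by
    refine Splits.of_dvd hsP ?_ (Polynomial.map_dvd _ (dvd_mul_right _ _))
    exact (Polynomial.map_ne_zero_iff (algebraMap ℚ L).injective).2 hP0
  have hmapC : (weil (q : ℤ) h).map (Int.castRingHom ℂ) =
      ((qw (q : ℤ) h).map (algebraMap ℚ L)).map (algebraMap L ℂ) := by
    rw [Polynomial.map_map, qw, Polynomial.map_map]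
    congr 1
  have hroots : crt (weil (q : ℤ) h) = (roots (qw (q : ℤ) h) L).image (algebraMap L ℂ) := by
    rw [crt, hmapC, hsL.roots_map]
    ext z
    rw [Multiset.mem_toFinset, Multiset.mem_map, Finset.mem_image]
    constructor
    · rintro ⟨b, hb, rfl⟩
      refine ⟨b, ?_, rfl⟩
      rw [mem_roots' h1.ne_zero]
      rw [mem_roots (Polynomial.map_ne_zero h1.ne_zero), IsRoot.def, eval_map_algebraMap] at hb
      exact hb
    · rintro ⟨b, hb, rfl⟩
      refine ⟨b, ?_, rfl⟩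
      rw [mem_roots' h1.ne_zero] at hb
      rw [mem_roots (Polynomial.map_ne_zero h1.ne_zero), IsRoot.def, eval_map_algebraMap]
      exact hb
  have hinj : Function.Injective (algebraMap L ℂ) := (algebraMap L ℂ).injective
  have hprod : ∀ n : ℂ → ℤ, ∏ z ∈ (roots (qw (q : ℤ) h) L).image (algebraMap L ℂ), z ^ n z =
      algebraMap L ℂ (∏ b ∈ roots (qw (q : ℤ) h) L, b ^ n (algebraMap L ℂ b)) := by
    intro n
    rw [Finset.prod_image fun a _ b _ hab => hinj hab, map_prod]
    exact Finset.prod_congr rfl fun b _ => (map_zpow₀ (algebraMap L ℂ) b _).symm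
  have hψP : ∀ z : ℂ, aeval z P = 0 → ∃ y : L, algebraMap L ℂ y = z := by
    intro z hz
    have hzL : z ∈ L := by
      apply IntermediateField.subset_adjoin
      rw [mem_rootSet]
      exact ⟨hP0, hz⟩
    exact ⟨⟨z, hzL⟩, rfl⟩
  have hint : (algebraMap ℚ ℂ).comp (Int.castRingHom ℚ) = algebraMap ℤ ℂ := Subsingleton.elim _ _
  have hψf : ∀ z : ℂ, aeval z f = 0 → ∃ y : L, algebraMap L ℂ y = z := by
    intro z hz
    refine hψP z ?_
    rw [hP, map_mul]
    refine mul_eq_zero_of_right _ ?_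
    rw [aeval_def, eval₂_map, hint, ← aeval_def, hz]
  have hmemA := Pool.Agent.Helper86.YV.field_aux2 L (algebraMap L ℂ) f hψf
  have hPne : qw (q : ℤ) h ≠ 0 := h1.ne_zero
  have hqL : ((q : ℤ) : L) ≠ 0 := by exact_mod_cast hq0
  rw [hroots] at hz
  obtain ⟨β₀, hβ₀, rfl⟩ := Finset.mem_image.1 hz
  have hβ0 : β₀ ≠ 0 := qw_root_ne_zero hm h1 hβ₀
  set A : IntermediateField ℚ L := IntermediateField.adjoin ℚ {z : L | aeval z f = 0} with hA
  -- the indicator function of the orbit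
  let n : ℂ → ℤ := fun z => if ∃ σ ∈ A.fixingSubgroup, algebraMap L ℂ (σ β₀) = z then 1 else 0
  refine ⟨n, 1, one_ne_zero, ?_, ?_⟩
  · rw [hroots, hprod, pow_one]
    refine (hmemA _).2 ?_
    show _ ∈ A
    rw [← IsGalois.fixedField_fixingSubgroup A, IntermediateField.mem_fixedField_iff]
    intro τ hτ
    have hτw : τ (∏ β ∈ roots (qw (q : ℤ) h) L, β ^ n (algebraMap L ℂ β)) =
        ∏ β ∈ roots (qw (q : ℤ) h) L, β ^ n (algebraMap L ℂ (τ⁻¹ β)) := by
      rw [map_prod]
      refine prod_bij' (fun β _ => τ β) (fun β _ => τ⁻¹ β) (fun β hβ => stab_roots hPne τ hβ)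
        (fun β hβ => stab_roots hPne τ⁻¹ hβ) (fun β _ => τ.symm_apply_apply β)
        (fun β _ => τ.apply_symm_apply β) fun β _ => ?_
      have h2 : τ⁻¹ (τ β) = β := τ.symm_apply_apply β
      rw [h2, map_zpow₀]
    rw [hτw]
    refine prod_congr rfl fun β _ => ?_
    congr 1
    have hiff : (∃ σ ∈ A.fixingSubgroup, algebraMap L ℂ (σ β₀) = algebraMap L ℂ (τ⁻¹ β)) ↔
        ∃ σ ∈ A.fixingSubgroup, algebraMap L ℂ (σ β₀) = algebraMap L ℂ β := by
      constructor
      · rintro ⟨σ, hσ, hσβ⟩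
        refine ⟨τ * σ, A.fixingSubgroup.mul_mem hτ hσ, ?_⟩
        have h3 : σ β₀ = τ⁻¹ β := hinj hσβ
        congr 1
        show τ (σ β₀) = β
        rw [h3]
        exact τ.apply_symm_apply β
      · rintro ⟨σ, hσ, hσβ⟩
        refine ⟨τ⁻¹ * σ, A.fixingSubgroup.mul_mem (A.fixingSubgroup.inv_mem hτ) hσ, ?_⟩
        have h3 : σ β₀ = β := hinj hσβ
        congr 1
        show τ⁻¹ (σ β₀) = τ⁻¹ β
        rw [h3]
    show (if ∃ σ ∈ A.fixingSubgroup, algebraMap L ℂ (σ β₀) = algebraMap L ℂ (τ⁻¹ β) then (1 : ℤ)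
      else 0) = if ∃ σ ∈ A.fixingSubgroup, algebraMap L ℂ (σ β₀) = algebraMap L ℂ β then 1 else 0
    rw [if_congr hiff rfl rfl]
  · have hn1 : n (algebraMap L ℂ β₀) = 1 := if_pos ⟨1, A.fixingSubgroup.one_mem, rfl⟩
    have hn2 : n ((q : ℂ) / algebraMap L ℂ β₀) = 0 := by
      refine if_neg ?_
      rintro ⟨σ, hσ, hσβ⟩
      apply hne
      have h4 : σ β₀ = ((q : ℤ) : L) / β₀ := by
        apply hinj
        rw [hσβ, map_div₀, map_intCast]
        norm_cast
      have h5 := noconj_aux L (algebraMap L ℂ) f hψf (q : ℤ) β₀ hβ0 (by exact_mod_cast hzF) σ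
        ((IntermediateField.mem_fixingSubgroup_iff A σ).1 hσ) h4
      rw [← map_pow, h5, map_intCast]
      norm_cast
    rw [hn1, hn2]
    exact one_ne_zero

end Pool.Agent.Helper86.YV
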