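import Pool.Agent.Helper86.YV.Defs
import Pool.Agent.Helper19.EX.Lower

/-!
# YV: an exotic relation shows that a tuple is not good
-/

set_option autoImplicit false

open Polynomial

namespace Pool.Agent.Helper86.YV

open Pool.Agent.Helper84.AA (frob)
open Pool.Agent.Helper19.AAR (splitF)
open Pool.Agent.Helper19.Sign (weil weil_monic)
open Pool.Agent.Helper19.EX (Exotic)

theorem splitF_one : splitF 1 = ⊥ := by
  rw [splitF]
  have : {z : ℂ | aeval z (1 : ℤ[X]) = 0} = ∅ := by
    ext z
    simp
  rw [this, IntermediateField.adjoin_empty]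

/-- The roots of an irreducible `frob q h` are not all rational. -/
theorem not_le_one {q : ℕ} {h : ℤ[X]} (hm : h.Monic) (hd : 1 ≤ h.natDegree)
    (hirr : Irreducible (frob q h)) : ¬ splitF (frob q h) ≤ splitF 1 := by
  intro hle
  have hfm : (frob q h).Monic := (weil_monic (q : ℤ) h hm).1
  have hfd : (frob q h).natDegree = 2 * h.natDegree := (weil_monic (q : ℤ) h hm).2
  have hmC : ((frob q h).map (Int.castRingHom ℂ)).Monic := hfm.map _
  obtain ⟨z, hz⟩ := IsAlgClosed.exists_root ((frob q h).map (Int.castRingHom ℂ)) (by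
    intro h1
    have h2 : ((frob q h).map (Int.castRingHom ℂ)).natDegree = 0 :=
      natDegree_eq_of_degree_eq_some (n := 0) (by rw [h1]; rfl)
    rw [hfm.natDegree_map] at h2
    omega)
  have hz1 : aeval z (frob q h) = 0 := by
    rw [IsRoot.def, eval_map] at hz
    rw [aeval_def, ← hz]
    congr 1
  have hz2 : z ∈ splitF 1 := hle (IntermediateField.subset_adjoin ℚ _ hz1)
  rw [splitF_one, IntermediateField.mem_bot] at hz2
  obtain ⟨r, rfl⟩ := hz2
  have hirrQ : Irreducible ((frob q h).map (algebraMap ℤ ℚ)) :=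
    (hfm.irreducible_iff_irreducible_map_fraction_map (K := ℚ)).1 hirr
  have hr : ((frob q h).map (algebraMap ℤ ℚ)).IsRoot r := by
    rw [IsRoot.def, eval_map, ← aeval_def]
    rw [aeval_algebraMap_apply] at hz1
    exact (map_eq_zero (algebraMap ℚ ℂ)).1 hz1
  have h1 := degree_eq_one_of_irreducible_of_root hirrQ hr
  have h2 : ((frob q h).map (algebraMap ℤ ℚ)).natDegree = 1 :=
    natDegree_eq_of_degree_eq_some (n := 1) (by rw [h1]; rfl)
  rw [hfm.natDegree_map] at h2
  omega

theorem not_goodF_of_exotic {q k : ℕ} {h : Fin k → ℤ[X]} {i : Fin k} (hm : (h i).Monic)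
    (hi : Exotic q (h i)) (hd : 1 ≤ (h i).natDegree) : ¬ GoodF q h := by
  classical
  intro hg
  obtain ⟨n, h1, z, hz, hne⟩ := hi
  refine hne ?_
  have h2 := hg.2 1 one_ne_zero (fun j w => if j = i then n w else 0) 1 one_ne_zero
  have h3 : (∏ j, ∏ w ∈ ((frob q (h j)).map (Int.castRingHom ℂ)).roots.toFinset,
      w ^ (if j = i then n w else 0)) = 1 := by
    rw [Finset.prod_eq_single i]
    · simpa using h1
    · intro j _ hj
      refine Finset.prod_eq_one fun w _ => ?_
      rw [if_neg hj, zpow_zero]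
    · intro h'; exact absurd (Finset.mem_univ i) h'
  rw [h3] at h2
  have h4 := h2 (by rw [one_pow]; exact one_mem _) i (not_le_one hm hd (hg.1 i)) z hz
  simpa using h4

end Pool.Agent.Helper86.YV
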