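import Pool.Agent.Helper19.AAR.SignRel
import Pool.Agent.Helper86.YV.Good

/-!
# YV: from relations over the rational numbers to relations over number fields, root by root
-/

set_option autoImplicit false

open Polynomial Finset

namespace Pool.Agent.Helper86.YV

open Pool.Agent.Helper19.AAR (splitF crt)
open Pool.Agent.Helper19.Sign (qw weil weil_monic irreducible_qw mem_qw qw_root_ne_zero)
open Pool.Agent.Helper19.Disc (roots mem_roots' stab_roots)

/-- If `β` is not in `F (β + q / β)`, `F` the field generated by the roots of `f`, then some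
automorphism over `F` maps `β` to `q / β`. -/
theorem conj_aux (L : Type) [Field L] [NumberField L] [IsGalois ℚ L] (ψ : L →+* ℂ) (f : ℤ[X])
    (hψ : ∀ z : ℂ, aeval z f = 0 → ∃ y : L, ψ y = z) (q : ℤ) (β : L) (hβ : β ≠ 0)
    (h : ψ β ∉ splitF f ⊔ IntermediateField.adjoin ℚ {ψ β + (q : ℂ) / ψ β}) :
    ∃ τ : L ≃ₐ[ℚ] L, (∀ x ∈ IntermediateField.adjoin ℚ {z : L | aeval z f = 0}, τ x = x) ∧
      τ β = (q : L) / β := by
  by_contra hcon
  push Not at hcon
  apply h
  set A : IntermediateField ℚ L := IntermediateField.adjoin ℚ {z : L | aeval z f = 0} with hA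
  set t : L := β + (q : L) / β with ht
  have hE : β ∈ A ⊔ IntermediateField.adjoin ℚ {t} := by
    rw [← IsGalois.fixedField_fixingSubgroup (A ⊔ IntermediateField.adjoin ℚ {t}),
      IntermediateField.mem_fixedField_iff]
    intro σ hσ
    have hσ' := (IntermediateField.mem_fixingSubgroup_iff _ σ).1 hσ
    have h1 : ∀ x ∈ A, σ x = x := fun x hx =>
      hσ' x ((le_sup_left : A ≤ A ⊔ IntermediateField.adjoin ℚ {t}) hx)
    have h2 : σ t = t := hσ' t
      ((le_sup_right : IntermediateField.adjoin ℚ {t} ≤ A ⊔ IntermediateField.adjoin ℚ {t})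
        (IntermediateField.mem_adjoin_simple_self ℚ t))
    rw [ht, map_add, map_div₀, map_intCast] at h2
    have hy : σ β ≠ 0 := (map_ne_zero σ).2 hβ
    have h4 : (σ β - β) * (σ β - (q : L) / β) = 0 := by
      field_simp at h2 ⊢
      linear_combination h2
    rcases mul_eq_zero.1 h4 with h5 | h5
    · exact sub_eq_zero.1 h5
    · exact absurd (sub_eq_zero.1 h5) (hcon σ h1)
  have hle : A ⊔ IntermediateField.adjoin ℚ {t} ≤
      (splitF f ⊔ IntermediateField.adjoin ℚ {ψ β + (q : ℂ) / ψ β}).comap ψ.toRatAlgHom := by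
    refine sup_le (fun x hx => ?_) ?_
    · show ψ x ∈ splitF f ⊔ IntermediateField.adjoin ℚ {ψ β + (q : ℂ) / ψ β}
      exact (le_sup_left : splitF f ≤ _) ((field_aux2 L ψ f hψ x).2 hx)
    · rw [IntermediateField.adjoin_simple_le_iff]
      show ψ t ∈ splitF f ⊔ IntermediateField.adjoin ℚ {ψ β + (q : ℂ) / ψ β}
      have h6 : ψ t = ψ β + (q : ℂ) / ψ β := by
        rw [ht, map_add, map_div₀, map_intCast]
      rw [h6]
      exact (le_sup_right : IntermediateField.adjoin ℚ {ψ β + (q : ℂ) / ψ β} ≤ _)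
        (IntermediateField.mem_adjoin_simple_self ℚ _)
  exact hle hE

/-- Relations over the field generated by the roots of `f`: the exponents at `z` and `q / z` are
equal for every root `z` which is not in `F (z + q / z)`. -/
theorem sign_relG (q : ℕ) (h : ℤ[X]) (hq : 0 < q) (hm : h.Monic) (hirr : Irreducible (weil (q : ℤ) h))
    (R0 : ∀ (n : ℂ → ℤ) (N : ℕ), N ≠ 0 → (∏ z ∈ crt (weil (q : ℤ) h), z ^ n z) ^ N = 1 →
      ∀ z ∈ crt (weil (q : ℤ) h), n z = n (q / z))
    (f : ℤ[X]) (hf : f ≠ 0)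
    (n : ℂ → ℤ) (N : ℕ) (hN : N ≠ 0)
    (hrel : (∏ z ∈ crt (weil (q : ℤ) h), z ^ n z) ^ N ∈ splitF f) :
    ∀ z ∈ crt (weil (q : ℤ) h), z ∉ splitF f ⊔ IntermediateField.adjoin ℚ {z + (q : ℂ) / z} →
      n z = n (q / z) := by
  classical
  have hq0 : (q : ℤ) ≠ 0 := by omega
  have hfm : (weil (q : ℤ) h).Monic := (weil_monic (q : ℤ) h hm).1
  have h1 : Irreducible (qw (q : ℤ) h) :=
    (hfm.irreducible_iff_irreducible_map_fraction_map (K := ℚ)).1 hirr
  -- the splitting field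
  set P : ℚ[X] := qw (q : ℤ) h * f.map (Int.castRingHom ℚ) with hP
  have hf0 : f.map (Int.castRingHom ℚ) ≠ 0 :=
    (Polynomial.map_ne_zero_iff (Int.castRingHom ℚ).injective_int).2 hf
  have hP0 : P ≠ 0 := mul_ne_zero h1.ne_zero hf0
  have hsC : (P.map (algebraMap ℚ ℂ)).Splits := IsAlgClosed.splits _
  let L : IntermediateField ℚ ℂ := IntermediateField.adjoin ℚ (P.rootSet ℂ)
  have hL : P.IsSplittingField ℚ L := IntermediateField.adjoin_rootSet_isSplittingField hsC
  have : FiniteDimensional ℚ L := IsSplittingField.finiteDimensional L P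
  have : NumberField L := { }
  have hnorm : Normal ℚ L := Normal.of_isSplittingField P
  have : IsGalois ℚ L := { }
  have hsP : (P.map (algebraMap ℚ L)).Splits := IsSplittingField.splits L P
  have hsL : ((qw (q : ℤ) h).map (algebraMap ℚ L)).Splits := by
    refine Splits.of_dvd hsP ?_ (Polynomial.map_dvd _ (dvd_mul_right _ _))
    exact (Polynomial.map_ne_zero_iff (algebraMap ℚ L).injective).2 hP0
  have hmapC : (weil (q : ℤ) h).map (Int.castRingHom ℂ) =
      ((qw (q : ℤ) h).map (algebraMap ℚ L)).map (algebraMap L ℂ) := by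
    rw [Polynomial.map_map, qw, Polynomial.map_map]
    congr 1
  have hroots : crt (weil (q : ℤ) h) = (roots (qw (q : ℤ) h) L).image (algebraMap L ℂ) := by
    rw [crt, hmapC, hsL.roots_map]
    ext z
    rw [Multiset.mem_toFinset, Multiset.mem_map, Finset.mem_image]
    constructor
    · rintro ⟨b, hb, rfl⟩
      refine ⟨b, ?_, rfl⟩
      rw [mem_roots' h1.ne_zero]
      rw [mem_roots (Polynomial.map_ne_zero h1.ne_zero), IsRoot.def, eval_map_algebraMap] at hb
      exact hb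
    · rintro ⟨b, hb, rfl⟩
      refine ⟨b, ?_, rfl⟩
      rw [mem_roots' h1.ne_zero] at hb
      rw [mem_roots (Polynomial.map_ne_zero h1.ne_zero), IsRoot.def, eval_map_algebraMap]
      exact hb
  have hinj : Function.Injective (algebraMap L ℂ) := (algebraMap L ℂ).injective
  have hprod : ∀ n : ℂ → ℤ, ∏ z ∈ (roots (qw (q : ℤ) h) L).image (algebraMap L ℂ), z ^ n z =
      algebraMap L ℂ (∏ b ∈ roots (qw (q : ℤ) h) L, b ^ n (algebraMap L ℂ b)) := by
    intro n
    rw [Finset.prod_image fun a _ b _ hab => hinj hab, map_prod]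
    exact Finset.prod_congr rfl fun b _ => (map_zpow₀ (algebraMap L ℂ) b _).symm
  have hψP : ∀ z : ℂ, aeval z P = 0 → ∃ y : L, algebraMap L ℂ y = z := by
    intro z hz
    have hzL : z ∈ L := by
      apply IntermediateField.subset_adjoin
      rw [mem_rootSet]
      exact ⟨hP0, hz⟩
    exact ⟨⟨z, hzL⟩, rfl⟩
  have hint : (algebraMap ℚ ℂ).comp (Int.castRingHom ℚ) = algebraMap ℤ ℂ := Subsingleton.elim _ _
  have hψf : ∀ z : ℂ, aeval z f = 0 → ∃ y : L, algebraMap L ℂ y = z := by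
    intro z hz
    refine hψP z ?_
    rw [hP, map_mul]
    refine mul_eq_zero_of_right _ ?_
    rw [aeval_def, eval₂_map, hint, ← aeval_def, hz]
  have hmemA := Pool.Agent.Helper86.YV.field_aux2 L (algebraMap L ℂ) f hψf
  rw [hroots, hprod, ← map_pow] at hrel
  have hPne : qw (q : ℤ) h ≠ 0 := h1.ne_zero
  have hqL : ((q : ℤ) : L) ≠ 0 := by exact_mod_cast hq0
  intro z hz hzF
  rw [hroots] at hz
  obtain ⟨β₀, hβ₀, rfl⟩ := Finset.mem_image.1 hz
  have hβ0 : β₀ ≠ 0 := qw_root_ne_zero hm h1 hβ₀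
  obtain ⟨τ, hτH, hτβ⟩ := conj_aux L (algebraMap L ℂ) f hψf (q : ℤ) β₀ hβ0 (by exact_mod_cast hzF)
  have hτβ' : τ (((q : ℤ) : L) / β₀) = β₀ := by
    rw [map_div₀, map_intCast, hτβ, div_div_cancel₀ hqL]
  have hinv1 : τ⁻¹ β₀ = ((q : ℤ) : L) / β₀ := by
    apply τ.injective
    rw [hτβ']
    exact τ.apply_symm_apply β₀
  have hinv2 : τ⁻¹ (((q : ℤ) : L) / β₀) = β₀ := by
    apply τ.injective
    rw [hτβ]
    exact τ.apply_symm_apply _
  set w : L := ∏ b ∈ roots (qw (q : ℤ) h) L, b ^ n (algebraMap L ℂ b) with hw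
  have hw0 : w ≠ 0 := prod_ne_zero_iff.2 fun β hβ => zpow_ne_zero _ (qw_root_ne_zero hm h1 hβ)
  have hτw : τ w = ∏ β ∈ roots (qw (q : ℤ) h) L, β ^ n (algebraMap L ℂ (τ⁻¹ β)) := by
    rw [hw, map_prod]
    refine prod_bij' (fun β _ => τ β) (fun β _ => τ⁻¹ β) (fun β hβ => stab_roots hPne τ hβ)
      (fun β hβ => stab_roots hPne τ⁻¹ hβ) (fun β _ => τ.symm_apply_apply β)
      (fun β _ => τ.apply_symm_apply β) fun β _ => ?_
    have h2 : τ⁻¹ (τ β) = β := τ.symm_apply_apply β
    rw [h2, map_zpow₀]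
  have hτwN : (τ w) ^ N = w ^ N := by
    rw [← map_pow]
    exact hτH _ ((hmemA _).1 hrel)
  -- the new exponents
  let inv : ℂ → L := Function.invFun (algebraMap L ℂ)
  have hinv : ∀ β : L, inv (algebraMap L ℂ β) = β := fun β =>
    Function.leftInverse_invFun hinj β
  let n' : ℂ → ℤ := fun z => n (algebraMap L ℂ (τ⁻¹ (inv z))) - n z
  have hn' : ∀ β : L, n' (algebraMap L ℂ β) =
      n (algebraMap L ℂ (τ⁻¹ β)) - n (algebraMap L ℂ β) := by
    intro β
    show n (algebraMap L ℂ (τ⁻¹ (inv (algebraMap L ℂ β)))) - n (algebraMap L ℂ β) = _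
    rw [hinv]
  have hrel' : (∏ z ∈ crt (weil (q : ℤ) h), z ^ n' z) ^ N = 1 := by
    rw [hroots, hprod, ← map_pow]
    have h2 : ∏ b ∈ roots (qw (q : ℤ) h) L, b ^ n' (algebraMap L ℂ b) = τ w / w := by
      rw [hτw, hw, ← prod_div_distrib]
      refine prod_congr rfl fun β hβ => ?_
      rw [hn', zpow_sub₀ (qw_root_ne_zero hm h1 hβ)]
    rw [h2, div_pow, hτwN, div_self (pow_ne_zero _ hw0), map_one]
  have hz' : algebraMap L ℂ β₀ ∈ crt (weil (q : ℤ) h) := by
    rw [hroots]; exact mem_image_of_mem _ hβ₀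
  have h4 := R0 n' N hN hrel' _ hz'
  have hqC : (q : ℂ) / algebraMap L ℂ β₀ = algebraMap L ℂ (((q : ℤ) : L) / β₀) := by
    rw [map_div₀, map_intCast]
    norm_cast
  rw [hqC, hn', hn', hinv1, hinv2] at h4
  rw [hqC]
  omega

end Pool.Agent.Helper86.YV
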