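import Pool.Agent.Helper86.YV.SignG
import Pool.Agent.Helper86.YV.Conv

/-!
# YV: the field condition of the relations is an equivalence
-/

set_option autoImplicit false

open Polynomial Finset

namespace Pool.Agent.Helper86.YV

open Pool.Agent.Helper19.AAR (splitF crt)
open Pool.Agent.Helper19.Sign (qw weil weil_monic)

theorem sq_ne_q (q : ℕ) (h : ℤ[X]) (hq : 0 < q) (hm : h.Monic)
    (hirr : Irreducible (weil (q : ℤ) h)) (z : ℂ) (hz : z ∈ crt (weil (q : ℤ) h)) :
    z ^ 2 ≠ q := by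
  intro h1
  have hfm := weil_monic (q : ℤ) h hm
  have hirrQ : Irreducible (qw (q : ℤ) h) :=
    (hfm.1.irreducible_iff_irreducible_map_fraction_map (K := ℚ)).1 hirr
  have hqm : (qw (q : ℤ) h).Monic := hfm.1.map _
  have hdeg : (qw (q : ℤ) h).natDegree = 2 * h.natDegree := by
    rw [qw, hfm.1.natDegree_map, hfm.2]
  have hz0 : aeval z (qw (q : ℤ) h) = 0 := by
    rw [crt, Multiset.mem_toFinset, mem_roots (hfm.1.map _).ne_zero, IsRoot.def, eval_map] at hz
    rw [qw, aeval_def, eval₂_map, ← hz]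
    congr 1
  have h3 : minpoly ℚ z = qw (q : ℤ) h :=
    (minpoly.eq_of_irreducible_of_monic hirrQ hz0 hqm).symm
  have h4 : qw (q : ℤ) h ∣ X ^ 2 - C (q : ℚ) := by
    rw [← h3, minpoly.dvd_iff, map_sub, map_pow, aeval_X, aeval_C, h1]
    simp
  have h5 : (X ^ 2 - C (q : ℚ) : ℚ[X]).natDegree = 2 := natDegree_X_pow_sub_C
  have hmo : (X ^ 2 - C (q : ℚ) : ℚ[X]).Monic := monic_X_pow_sub_C _ two_ne_zero
  have h6 := natDegree_le_of_dvd h4 hmo.ne_zero
  rw [hdeg, h5] at h6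
  have h7 : h.natDegree ≠ 0 := by
    intro h0
    rw [h0, mul_zero] at hdeg
    exact hirrQ.not_isUnit (isUnit_of_dvd_one (by rw [hqm.natDegree_eq_zero.1 hdeg]))
  have hg : h.natDegree = 1 := by omega
  have h8 : (X ^ 2 - C (q : ℚ) : ℚ[X]) = qw (q : ℤ) h :=
    eq_of_monic_of_dvd_of_natDegree_le hqm hmo h4 (by rw [hdeg, hg, h5])
  have h9 : (weil (q : ℤ) h).eval 0 = q := by
    have h10 : h.coeff 1 = 1 := by
      have := hm.coeff_natDegree
      rwa [hg] at this
    rw [weil, hg, Finset.sum_range_succ, Finset.sum_range_one]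
    simp [h10]
  have h11 : (qw (q : ℤ) h).eval 0 = (q : ℚ) := by
    rw [qw, eval_zero_map, h9]
    simp
  rw [← h8] at h11
  simp only [eval_sub, eval_pow, eval_X, eval_C] at h11
  have h12 : (0 : ℚ) < q := by exact_mod_cast hq
  linarith

/-- For a root `z` of the Frobenius polynomial: all relations over `F` have the same exponent at `z`
and `q / z` if and only if `z` is not in `F (z + q / z)`. -/
theorem sign_iff (q : ℕ) (h : ℤ[X]) (hq : 0 < q) (hm : h.Monic) (hirr : Irreducible (weil (q : ℤ) h))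
    (R0 : ∀ (n : ℂ → ℤ) (N : ℕ), N ≠ 0 → (∏ z ∈ crt (weil (q : ℤ) h), z ^ n z) ^ N = 1 →
      ∀ z ∈ crt (weil (q : ℤ) h), n z = n (q / z))
    (f : ℤ[X]) (hf : f ≠ 0) (z : ℂ) (hz : z ∈ crt (weil (q : ℤ) h)) :
    (∀ (n : ℂ → ℤ) (N : ℕ), N ≠ 0 → (∏ w ∈ crt (weil (q : ℤ) h), w ^ n w) ^ N ∈ splitF f →
      n z = n (q / z)) ↔
    z ∉ splitF f ⊔ IntermediateField.adjoin ℚ {z + (q : ℂ) / z} := by
  constructor
  · intro hall hzF
    obtain ⟨n, N, hN, hrel, hne⟩ := conv q h hq hm hirr f hf z hz (sq_ne_q q h hq hm hirr z hz) hzF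
    exact hne (hall n N hN hrel)
  · intro hzF n N hN hrel
    exact sign_relG q h hq hm hirr R0 f hf n N hN hrel z hz hzF

end Pool.Agent.Helper86.YV
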