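import Pool.Agent.Helper19.YV.Upper
import Pool.Agent.Helper86.YV.Degree

/-!
# YV: the upper bounds together with the degree of the splitting fields
-/

set_option autoImplicit false

open Polynomial

namespace Pool.Agent.Helper86.YV

open Pool.Agent.Helper84.AA
open Pool.Agent.Helper83.YV (RelLefschetzF)
open Pool.Agent.Helper19.AAR (splitF)
open Pool.Agent.Helper19.XV (fin_T)

theorem goodD_upper : ∃ d : ℝ, 0 < d ∧ ∃ G : ℕ, ∀ q : ℕ, 16 ≤ q → ∀ p : ℕ, p.Prime →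
    ∀ (k m : ℕ), G ≤ m → ∀ B : ℝ, 1 ≤ B → B ≤ (m : ℝ) ^ (4 / 5 : ℝ) → (k : ℝ) ≤ (m : ℝ) ^ B →
      ∀ g : Fin k → ℕ, (∀ i, m ≤ g i ∧ (g i : ℝ) ≤ (m : ℝ) ^ B) →
      ∀ S : Fin k → Set ℤ[X], (∀ i, {h ∈ traceSet q (g i) | ¬ (p : ℤ) ∣ h.coeff 0} ⊆ S i ∧
        S i ⊆ traceSet q (g i)) →
      (({h : Fin k → ℤ[X] | (∀ i, h i ∈ S i) ∧ ¬ GoodD q h}.ncard : ℕ) : ℝ) ≤
        (k : ℝ) * (q : ℝ) ^ (-(d * m / B)) *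
        (({h : Fin k → ℤ[X] | ∀ i, h i ∈ S i}.ncard : ℕ) : ℝ) :=
  Pool.Agent.Helper19.YV.almost_uniformY_of (Gd := fun q _ h => GoodD q h)
    (fun _ _ hq h hm hd hirr hl => goodD_odd hq h hm hd hirr hl)
    (Pool.Agent.Helper86.XU.one_bigU_of Pool.Agent.Helper86.XU.res_boundU
      Pool.Agent.Helper86.XU.delta_boundU)

/-- `(1)` of `MP_de89cc_ag.AlmostAllExponential`. -/
theorem good_upperD : ∃ d : ℝ, 0 < d ∧ ∃ G : ℕ, ∀ q : ℕ, 16 ≤ q → ∀ p : ℕ, p.Prime →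
    ∀ (k m : ℕ), G ≤ m → ∀ B : ℝ, 1 ≤ B → B ≤ (m : ℝ) ^ (4 / 5 : ℝ) → (k : ℝ) ≤ (m : ℝ) ^ B →
      ∀ g : Fin k → ℕ, (∀ i, m ≤ g i ∧ (g i : ℝ) ≤ (m : ℝ) ^ B) →
      ∀ S : Fin k → Set ℤ[X], (∀ i, {h ∈ traceSet q (g i) | ¬ (p : ℤ) ∣ h.coeff 0} ⊆ S i ∧
        S i ⊆ traceSet q (g i)) →
      (({h : Fin k → ℤ[X] | (∀ i, h i ∈ S i) ∧ ¬ (GoodF q h ∧
        ∀ i, 2 ^ g i ≤ Module.finrank ℚ (splitF (frob q (h i))))}.ncard : ℕ) : ℝ) ≤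
        (k : ℝ) * (q : ℝ) ^ (-(d * m / B)) *
        (({h : Fin k → ℤ[X] | ∀ i, h i ∈ S i}.ncard : ℕ) : ℝ) := by
  obtain ⟨d, hd, G, hG⟩ := goodD_upper
  refine ⟨d, hd, G, fun q hq p hp k m hm B hB1 hB2 hk g hg S hS => ?_⟩
  refine le_trans ?_ (hG q hq p hp k m hm B hB1 hB2 hk g hg S hS)
  have hsub : {h : Fin k → ℤ[X] | (∀ i, h i ∈ S i) ∧ ¬ (GoodF q h ∧
        ∀ i, 2 ^ g i ≤ Module.finrank ℚ (splitF (frob q (h i))))} ⊆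
      {h : Fin k → ℤ[X] | (∀ i, h i ∈ S i) ∧ ¬ GoodD q h} := by
    rintro h ⟨hh, hn⟩
    refine ⟨hh, fun hgood => hn ⟨hgood.1, fun i => ?_⟩⟩
    have h1 := hgood.2 i
    rwa [((hS i).2 (hh i)).2.1] at h1
  exact_mod_cast Set.ncard_le_ncard hsub (fin_T (fun i => (hS i).2) _)

/-- `(1)` of `MP_09799c_ag.AlmostAllLiftsExponential`. -/
theorem lefschetz_upperD : ∃ d : ℝ, 0 < d ∧ ∃ G : ℕ, ∀ q : ℕ, 16 ≤ q → ∀ p : ℕ, p.Prime →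
    ∀ (k m : ℕ), G ≤ m → ∀ B : ℝ, 1 ≤ B → B ≤ (m : ℝ) ^ (4 / 5 : ℝ) → (k : ℝ) ≤ (m : ℝ) ^ B →
      ∀ g : Fin k → ℕ, (∀ i, m ≤ g i ∧ (g i : ℝ) ≤ (m : ℝ) ^ B) →
      ∀ S : Fin k → Set ℤ[X], (∀ i, {h ∈ traceSet q (g i) | ¬ (p : ℤ) ∣ h.coeff 0} ⊆ S i ∧
        S i ⊆ traceSet q (g i)) →
      (({h : Fin k → ℤ[X] | (∀ i, h i ∈ S i) ∧ ¬ (RelLefschetzF q h ∧
        ∀ i, 2 ^ g i ≤ Module.finrank ℚ (splitF (frob q (h i))))}.ncard : ℕ) : ℝ) ≤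
        (k : ℝ) * (q : ℝ) ^ (-(d * m / B)) *
        (({h : Fin k → ℤ[X] | ∀ i, h i ∈ S i}.ncard : ℕ) : ℝ) := by
  obtain ⟨d, hd, G, hG⟩ := good_upperD
  refine ⟨d, hd, max G 2, fun q hq p hp k m hm B hB1 hB2 hk g hg S hS => ?_⟩
  have hm1 : G ≤ m := le_trans (le_max_left _ _) hm
  have hm2 : 2 ≤ m := le_trans (le_max_right _ _) hm
  refine le_trans ?_ (hG q hq p hp k m hm1 B hB1 hB2 hk g hg S hS)
  have hsub : {h : Fin k → ℤ[X] | (∀ i, h i ∈ S i) ∧ ¬ (RelLefschetzF q h ∧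
        ∀ i, 2 ^ g i ≤ Module.finrank ℚ (splitF (frob q (h i))))} ⊆
      {h : Fin k → ℤ[X] | (∀ i, h i ∈ S i) ∧ ¬ (GoodF q h ∧
        ∀ i, 2 ^ g i ≤ Module.finrank ℚ (splitF (frob q (h i))))} := by
    rintro h ⟨hh, hn⟩
    refine ⟨hh, fun hgood => hn ⟨Pool.Agent.Helper84.YV.relLefschetzF_of (by omega) h
      (fun i => ((hS i).2 (hh i)).1) (fun i => ?_) hgood.1, hgood.2⟩⟩
    rw [((hS i).2 (hh i)).2.1]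
    exact le_trans hm2 (hg i).1
  exact_mod_cast Set.ncard_le_ncard hsub (fin_T (fun i => (hS i).2) _)

end Pool.Agent.Helper86.YV
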